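import Pool.Agent.H14.AMX.L0

/-!
# Alperin–McKay (MP_657073_al), module L1: congruences of central characters and integral class
functions
-/

open scoped Classical

namespace AMx

namespace H14

theorem cf_of_isConj {G : Type} [Group G] {a : G → ℂ} (ha : CF a) {x y : G} (h : IsConj x y) :
    a x = a y := by
  obtain ⟨c, rfl⟩ := isConj_iff.1 h
  exact (ha c x).symm

/-- expansion over the conjugacy classes -/
theorem sum_div_eq {N G : Type} [Group N] [Fintype N] [Group G] [Fintype G] (j : N →* G)
    (ψ : N → ℂ) {a : G → ℂ} (ha : CF a) :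
    (∑ y, a (j y) * ψ y) / ψ 1 =
      ∑ c : ConjClasses G, a (Quotient.out c) * cen j ψ (Quotient.out c) := by
  have h1 : ∀ c : ConjClasses G, a (Quotient.out c) * cen j ψ (Quotient.out c) =
      (∑ y : N, if ConjClasses.mk (j y) = c then a (j y) * ψ y else 0) / ψ 1 := by
    intro c
    unfold cen
    rw [← mul_div_assoc, Finset.mul_sum]
    congr 1
    refine Finset.sum_congr rfl fun y _ => ?_
    have hc : ConjClasses.mk (Quotient.out c) = c := Quotient.out_eq c
    by_cases h : IsConj (Quotient.out c) (j y)
    · have h' : ConjClasses.mk (j y) = c := by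
        rw [← hc]
        exact (ConjClasses.mk_eq_mk_iff_isConj.2 h).symm
      rw [if_pos h, if_pos h', cf_of_isConj ha h]
    · have h' : ¬ ConjClasses.mk (j y) = c := by
        intro h'
        rw [← hc] at h'
        exact h (ConjClasses.mk_eq_mk_iff_isConj.1 h').symm
      rw [if_neg h, if_neg h', mul_zero]
  simp_rw [h1]
  rw [← Finset.sum_div, Finset.sum_comm]
  congr 1
  refine Finset.sum_congr rfl fun y _ => ?_
  rw [Finset.sum_ite_eq Finset.univ (ConjClasses.mk (j y))]
  simp

end H14

theorem l1 : T_L1 := by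
  intro 𝔪 N G _ _ _ _ j χ ψ hχ h a ha hai
  have e1 := H14.sum_div_eq (MonoidHom.id G) χ ha
  simp only [MonoidHom.id_apply] at e1
  rw [e1, H14.sum_div_eq j ψ ha]
  exact H14.cong_sum _ _ _ fun c _ => H14.cong_mul (hai _) (h _)

theorem l2 : T_L2 := by
  intro 𝔪 G _ _ χ hχ hint a ha hai hne
  have e1 := H14.sum_div_eq (MonoidHom.id G) χ ha
  simp only [MonoidHom.id_apply] at e1
  rw [e1] at hne
  by_contra hcon
  push Not at hcon
  apply hne
  have : Cong 𝔪 (∑ c : ConjClasses G, a (Quotient.out c) *
      cen (MonoidHom.id G) χ (Quotient.out c)) (∑ c : ConjClasses G, 0) := by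
    refine H14.cong_sum _ _ _ fun c _ => ?_
    by_cases hc : Cong 𝔪 (a (Quotient.out c)) 0
    · have := H14.cong_mul (hint (Quotient.out c)) hc
      rw [mul_zero] at this
      rwa [mul_comm]
    · have := H14.cong_mul (hai (Quotient.out c)) (hcon _ hc)
      rwa [mul_zero] at this
  simpa using this

end AMx
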