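import Pool.Agent.H4.AM.Targets

/-!
# Alperin–McKay (MP_657073_al), module B5: the local situation
-/

open scoped Classical

namespace AMx

namespace H14

variable {ℓ : ℕ} {X T : Type} [Group X] [Group T] [Fintype X] [Fintype T] (F : Fr ℓ X T)

theorem eq_of_pow_eq {a b : ℂ} {n m : ℕ} (hcop : Nat.Coprime n m) (hb : b ≠ 0)
    (h : a ^ n = b ^ n) (ha1 : a ^ m = 1) (hb1 : b ^ m = 1) : a = b := by
  have h1 : (a / b) ^ n = 1 := by rw [div_pow, h, div_self (pow_ne_zero n hb)]
  have h2 : (a / b) ^ m = 1 := by rw [div_pow, ha1, hb1, div_one]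
  have h3 : orderOf (a / b) ∣ n := orderOf_dvd_of_pow_eq_one h1
  have h4 : orderOf (a / b) ∣ m := orderOf_dvd_of_pow_eq_one h2
  have h5 : orderOf (a / b) = 1 := Nat.eq_one_of_dvd_coprimes hcop h3 h4
  rw [orderOf_eq_one_iff] at h5
  exact (div_eq_one_iff_eq hb).1 h5

/-- the key step: a linear character of `V` invariant under the `ℓ`-group `io D` is determined by
its values at the `io D`-fixed elements -/
theorem stab_key [hl : Fact ℓ.Prime] {D : Subgroup T} (hD : IsPGroup ℓ D) (x : X)
    (hxN : ∀ d ∈ D, ∃ d' ∈ D, x * F.io d * x⁻¹ = F.io d')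
    (hx : ∀ v ∈ F.V, (∀ d ∈ D, F.io d * v * (F.io d)⁻¹ = v) → F.lam (x * v * x⁻¹) = F.lam v) :
    ∀ v ∈ F.V, F.lam (x * v * x⁻¹) = F.lam v := by
  intro v0 hv0
  haveI := F.norm
  letI : CommGroup F.V :=
    { (inferInstance : Group F.V) with
      mul_comm := fun a b => Subtype.ext (F.comm a a.2 b b.2) }
  let L : F.V →* ℂ :=
    { toFun := fun v => F.lam v
      map_one' := F.lam_one
      map_mul' := fun a b => F.lam_mul a a.2 b b.2 }
  have hL : ∀ v : F.V, L v = F.lam v := fun v => rfl
  have hconj : ∀ (g : X) (v : F.V), ((MulAut.conjNormal g v : F.V) : X) = g * v * g⁻¹ :=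
    fun g v => MulAut.conjNormal_apply g v
  have hLD : ∀ (t : T) (v : F.V), L (MulAut.conjNormal (F.io t) v) = L v := by
    intro t v
    rw [hL, hL, hconj]
    exact (F.stab (F.io t)).2 ⟨1, F.V.one_mem, t, by rw [one_mul]⟩ v v.2
  let nm : F.V → F.V := fun v => ∏ d : D, MulAut.conjNormal (F.io (d : T)) v
  have hcomp : ∀ (g h : X) (v : F.V), (MulAut.conjNormal g (MulAut.conjNormal h v) : F.V) =
      MulAut.conjNormal (g * h) v := by
    intro g h v
    rw [map_mul, MulAut.mul_apply]
  have hfix : ∀ (v : F.V) (d : T), d ∈ D → MulAut.conjNormal (F.io d) (nm v) = nm v := by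
    intro v d hd
    show MulAut.conjNormal (F.io d) (∏ e : D, MulAut.conjNormal (F.io (e : T)) v) =
      ∏ e : D, MulAut.conjNormal (F.io (e : T)) v
    rw [map_prod]
    refine Fintype.prod_equiv (Equiv.mulLeft (⟨d, hd⟩ : D)) _ _ fun e => ?_
    rw [hcomp, ← map_mul]
    rfl
  have hLnm : ∀ v : F.V, L (nm v) = L v ^ Nat.card D := by
    intro v
    show L (∏ e : D, MulAut.conjNormal (F.io (e : T)) v) = _
    rw [map_prod, Finset.prod_congr rfl fun (e : D) _ => hLD (e : T) v, Finset.prod_const,
      Finset.card_univ, Nat.card_eq_fintype_card]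
  have hLx : ∀ v : F.V, L (MulAut.conjNormal x (nm v)) = L (MulAut.conjNormal x v) ^ Nat.card D := by
    intro v
    show L (MulAut.conjNormal x (∏ e : D, MulAut.conjNormal (F.io (e : T)) v)) = _
    rw [map_prod, map_prod]
    have : ∀ e : D, L (MulAut.conjNormal x (MulAut.conjNormal (F.io (e : T)) v)) =
        L (MulAut.conjNormal x v) := by
      intro e
      obtain ⟨d', hd', he⟩ := hxN e e.2
      have he' : x * F.io (e : T) = F.io d' * x := by rw [← he]; group
      rw [hcomp, he', ← hcomp, hLD]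
    rw [Finset.prod_congr rfl fun (e : D) _ => this e, Finset.prod_const, Finset.card_univ,
      Nat.card_eq_fintype_card]
  have hpow : ∀ v : F.V, L v ^ Nat.card F.V = 1 := by
    intro v
    rw [← map_pow, pow_card_eq_one', map_one]
  have hne : ∀ v : F.V, L v ≠ 0 := by
    intro v h0
    have := hpow v
    rw [h0, zero_pow (Nat.card_pos).ne'] at this
    exact zero_ne_one this
  have hcop : Nat.Coprime (Nat.card D) (Nat.card F.V) := by
    obtain ⟨k, hk⟩ := (IsPGroup.iff_card).1 hD
    rw [hk]
    exact Nat.Coprime.pow_left k ((Nat.Prime.coprime_iff_not_dvd hl.out).2 F.cop)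
  have hfixL : ∀ v : F.V, L (MulAut.conjNormal x (nm v)) = L (nm v) := by
    intro v
    rw [hL, hL, hconj]
    refine hx _ (nm v).2 fun d hd => ?_
    have := congrArg (Subtype.val) (hfix v d hd)
    rwa [hconj] at this
  have hfin := hfixL ⟨v0, hv0⟩
  rw [hLnm, hLx] at hfin
  have := eq_of_pow_eq hcop (hne ⟨v0, hv0⟩) hfin (hpow _) (hpow _)
  rw [hL, hL, hconj] at this
  exact this

/-- if `v · io t` normalises `io D` then `t` normalises `D` and `v` centralises `io D` -/
theorem norm_split {D : Subgroup T} {v : X} (hv : v ∈ F.V) {t : T}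
    (hN : ∀ d ∈ D, ∃ d' ∈ D, (v * F.io t) * F.io d * (v * F.io t)⁻¹ = F.io d') :
    ∀ d ∈ D, t * d * t⁻¹ ∈ D ∧ v * F.io (t * d * t⁻¹) * v⁻¹ = F.io (t * d * t⁻¹) := by
  intro d hd
  obtain ⟨d', hd', he⟩ := hN d hd
  have h1 : v * F.io (t * d * t⁻¹) * v⁻¹ = F.io d' := by
    rw [← he, map_mul, map_mul, map_inv]
    group
  have h2 : F.io (d' * (t * d * t⁻¹)⁻¹) ∈ F.V := by
    have h3 : F.io (d' * (t * d * t⁻¹)⁻¹) =
        v * (F.io (t * d * t⁻¹) * v⁻¹ * (F.io (t * d * t⁻¹))⁻¹) := by
      rw [map_mul, map_inv, ← h1]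
      group
    rw [h3]
    exact F.V.mul_mem hv (F.norm.conj_mem _ (F.V.inv_mem hv) _)
  have h4 : t * d * t⁻¹ = d' := by
    have := F.disj _ h2
    rw [mul_inv_eq_one] at this
    exact this.symm
  rw [h4] at h1 ⊢
  exact ⟨hd', h1⟩

end H14

theorem b5 : T_B5 := by
  intro ℓ hl X T _ _ _ _ F D hD
  haveI := F.norm
  set N : Subgroup X := Subgroup.normalizer ((D.map F.io : Subgroup X) : Set X) with hNdef
  set NT : Subgroup T := Subgroup.normalizer (D : Set T) with hNTdef
  -- membership in the normalisers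
  have memN : ∀ x : X, x ∈ N → ∀ d ∈ D, ∃ d' ∈ D, x * F.io d * x⁻¹ = F.io d' := by
    intro x hx d hd
    have := (Subgroup.mem_normalizer_iff.1 hx (F.io d)).1 (Subgroup.mem_map_of_mem _ hd)
    obtain ⟨d', hd', he⟩ := Subgroup.mem_map.1 this
    exact ⟨d', hd', he.symm⟩
  have ioN : ∀ t : T, t ∈ NT → F.io t ∈ N := by
    intro t ht
    rw [hNdef, Subgroup.mem_normalizer_iff]
    intro y
    constructor
    · intro hy
      obtain ⟨d, hd, rfl⟩ := Subgroup.mem_map.1 hy
      refine Subgroup.mem_map.2 ⟨t * d * t⁻¹, (Subgroup.mem_normalizer_iff.1 ht d).1 hd, ?_⟩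
      rw [map_mul, map_mul, map_inv]
    · intro hy
      obtain ⟨d, hd, hde⟩ := Subgroup.mem_map.1 hy
      refine Subgroup.mem_map.2 ⟨t⁻¹ * d * t, ?_, ?_⟩
      · rw [Subgroup.mem_normalizer_iff.1 ht]
        have : t * (t⁻¹ * d * t) * t⁻¹ = d := by group
        rw [this]
        exact hd
      · rw [map_mul, map_mul, map_inv, hde]
        group
  have splitN : ∀ x ∈ N, ∀ v ∈ F.V, ∀ t, x = v * F.io t → t ∈ NT ∧ v ∈ N := by
    intro x hx v hv t hxe
    have h1 := H14.norm_split F (D := D) hv (t := t) (by rw [← hxe]; exact memN x hx)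
    have hx' : x⁻¹ ∈ N := N.inv_mem hx
    have hv' : (F.io t)⁻¹ * v⁻¹ * F.io t ∈ F.V := by
      have := F.norm.conj_mem _ (F.V.inv_mem hv) (F.io t)⁻¹
      rwa [inv_inv] at this
    have h2 := H14.norm_split F (D := D) hv' (t := t⁻¹) (by
      have e : (F.io t)⁻¹ * v⁻¹ * F.io t * F.io t⁻¹ = x⁻¹ := by
        rw [hxe, map_inv]
        group
      rw [e]
      exact memN _ hx')
    have ht : t ∈ NT := by
      rw [hNTdef, Subgroup.mem_normalizer_iff]
      intro d
      constructor
      · intro hd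
        exact (h1 d hd).1
      · intro hd
        have := (h2 _ hd).1
        have e : t⁻¹ * (t * d * t⁻¹) * t⁻¹⁻¹ = d := by group
        rwa [e] at this
    refine ⟨ht, ?_⟩
    have : v = x * (F.io t)⁻¹ := by rw [hxe]; group
    rw [this]
    exact N.mul_mem hx (N.inv_mem (ioN t ht))
  refine ⟨{
    V := F.V.subgroupOf N
    norm := inferInstance
    comm := ?_
    cop := ?_
    lam := fun x => F.lam (x : X)
    lam_off := ?_
    lam_one := F.lam_one
    lam_mul := ?_
    io := (F.io.comp NT.subtype).codRestrict N (fun t => ioN t t.2)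
    inj := ?_
    disj := ?_
    stab := ?_ }, ?_, ?_⟩
  · intro v hv w hw
    exact Subtype.ext (F.comm _ (Subgroup.mem_subgroupOf.1 hv) _ (Subgroup.mem_subgroupOf.1 hw))
  · intro h
    apply F.cop
    refine h.trans ?_
    have hinj : Function.Injective
        ((N.subtype.comp (F.V.subgroupOf N).subtype).codRestrict F.V
          (fun v => Subgroup.mem_subgroupOf.1 v.2)) := by
      intro a b hab
      have := congrArg Subtype.val hab
      exact Subtype.ext (Subtype.ext this)
    exact Subgroup.card_dvd_of_injective _ hinj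
  · intro x hx
    exact F.lam_off _ fun h => hx (Subgroup.mem_subgroupOf.2 h)
  · intro v hv w hw
    exact F.lam_mul _ (Subgroup.mem_subgroupOf.1 hv) _ (Subgroup.mem_subgroupOf.1 hw)
  · intro a b hab
    have := congrArg Subtype.val hab
    exact Subtype.ext (F.inj this)
  · intro t ht
    have := F.disj (t : T) (Subgroup.mem_subgroupOf.1 ht)
    exact Subtype.ext this
  · intro x
    constructor
    · intro hx
      have hst : ∀ v ∈ F.V, F.lam ((x : X) * v * (x : X)⁻¹) = F.lam v := by
        refine H14.stab_key F hD (x : X) (memN x x.2) ?_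
        intro v hv hvD
        have hvN : v ∈ N := by
          rw [hNdef, Subgroup.mem_normalizer_iff]
          have hc : ∀ d ∈ D, v * F.io d * v⁻¹ = F.io d := by
            intro d hd
            have := hvD d hd
            rw [mul_inv_eq_iff_eq_mul] at this ⊢
            exact this.symm
          intro y
          constructor
          · intro hy
            obtain ⟨d, hd, rfl⟩ := Subgroup.mem_map.1 hy
            rw [hc d hd]
            exact Subgroup.mem_map_of_mem _ hd
          · intro hy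
            obtain ⟨d, hd, hde⟩ := Subgroup.mem_map.1 hy
            have : y = F.io d := by
              have h1 := hc d hd
              rw [hde] at h1
              have h2 : v * y * v⁻¹ = y := by
                have h3 : v * (v * y * v⁻¹) = (v * y * v⁻¹) * v := by
                  rw [mul_inv_eq_iff_eq_mul] at h1
                  exact h1
                have h4 : v * y * v⁻¹ = y := by
                  have h5 : v * (v * y * v⁻¹) = v * y := by rw [h3]; group
                  exact mul_left_cancel h5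
                exact h4
              rw [hde, h2]
            rw [this]
            exact Subgroup.mem_map_of_mem _ hd
        exact hx ⟨v, hvN⟩ (Subgroup.mem_subgroupOf.2 hv)
      obtain ⟨v, hv, t, hxe⟩ := (F.stab (x : X)).1 hst
      obtain ⟨ht, hvN⟩ := splitN x x.2 v hv t hxe
      exact ⟨⟨v, hvN⟩, Subgroup.mem_subgroupOf.2 hv, ⟨t, ht⟩, Subtype.ext hxe⟩
    · rintro ⟨v, hv, t, rfl⟩ w hw
      exact (F.stab ((v : X) * F.io (t : T))).2
        ⟨v, Subgroup.mem_subgroupOf.1 hv, t, rfl⟩ w (Subgroup.mem_subgroupOf.1 hw)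
  · exact ⟨fun x => Subgroup.mem_subgroupOf, fun x => rfl, fun t => rfl⟩
  · ext y
    constructor
    · intro hy
      obtain ⟨t, ht, rfl⟩ := Subgroup.mem_map.1 hy
      exact Subgroup.mem_subgroupOf.2 (Subgroup.mem_map_of_mem _ (Subgroup.mem_subgroupOf.1 ht))
    · intro hy
      obtain ⟨d, hd, hde⟩ := Subgroup.mem_map.1 (Subgroup.mem_subgroupOf.1 hy)
      exact Subgroup.mem_map.2 ⟨⟨d, Subgroup.le_normalizer hd⟩, Subgroup.mem_subgroupOf.2 hd,
        Subtype.ext hde⟩

end AMx
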