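import Pool.Agent.H4.AM.Targets

/-!
# Alperin–McKay (MP_657073_al), module L0: the calculus of congruences
-/

open scoped Classical

namespace AMx

namespace H14

variable {𝔪 : Ideal (integralClosure ℤ ℂ)}

theorem cong_refl (a : ℂ) : Cong 𝔪 a a := ⟨0, 𝔪.zero_mem, by simp⟩

theorem cong_symm {a b : ℂ} (h : Cong 𝔪 a b) : Cong 𝔪 b a := by
  obtain ⟨c, hc, hab⟩ := h
  refine ⟨-c, 𝔪.neg_mem hc, ?_⟩
  rw [Subalgebra.coe_neg, hab]
  ring

theorem cong_trans {a b c : ℂ} (h : Cong 𝔪 a b) (h' : Cong 𝔪 b c) : Cong 𝔪 a c := by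
  obtain ⟨u, hu, hab⟩ := h
  obtain ⟨v, hv, hbc⟩ := h'
  refine ⟨u + v, 𝔪.add_mem hu hv, ?_⟩
  rw [Subalgebra.coe_add, hab, hbc]
  ring

theorem cong_add {a b c d : ℂ} (h : Cong 𝔪 a b) (h' : Cong 𝔪 c d) : Cong 𝔪 (a + c) (b + d) := by
  obtain ⟨u, hu, hab⟩ := h
  obtain ⟨v, hv, hcd⟩ := h'
  refine ⟨u + v, 𝔪.add_mem hu hv, ?_⟩
  rw [Subalgebra.coe_add, hab, hcd]
  ring

theorem cong_mul {a b c : ℂ} (hc : IsIntegral ℤ c) (h : Cong 𝔪 a b) :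
    Cong 𝔪 (c * a) (c * b) := by
  obtain ⟨u, hu, hab⟩ := h
  refine ⟨⟨c, hc⟩ * u, 𝔪.mul_mem_left _ hu, ?_⟩
  rw [Subalgebra.coe_mul, hab]
  ring

theorem cong_sum {ι : Type*} (s : Finset ι) (f g : ι → ℂ) (h : ∀ i ∈ s, Cong 𝔪 (f i) (g i)) :
    Cong 𝔪 (∑ i ∈ s, f i) (∑ i ∈ s, g i) := by
  induction s using Finset.induction_on with
  | empty => simpa using cong_refl (𝔪 := 𝔪) 0
  | insert i s hi ih =>
    rw [Finset.sum_insert hi, Finset.sum_insert hi]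
    exact cong_add (h i (Finset.mem_insert_self i s))
      (ih fun j hj => h j (Finset.mem_insert_of_mem hj))

theorem cong_zero_iff {a : ℂ} (ha : IsIntegral ℤ a) :
    Cong 𝔪 a 0 ↔ (⟨a, ha⟩ : integralClosure ℤ ℂ) ∈ 𝔪 := by
  constructor
  · rintro ⟨c, hc, hca⟩
    have : c = ⟨a, ha⟩ := Subtype.ext (by simpa using hca)
    rwa [this] at hc
  · intro h
    exact ⟨_, h, by simp⟩

theorem cong_prime (hm : 𝔪.IsMaximal) {a b : ℂ} (ha : IsIntegral ℤ a) (hb : IsIntegral ℤ b)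
    (h : Cong 𝔪 (a * b) 0) : Cong 𝔪 a 0 ∨ Cong 𝔪 b 0 := by
  rw [cong_zero_iff (ha.mul hb)] at h
  rw [cong_zero_iff ha, cong_zero_iff hb]
  have hp : 𝔪.IsPrime := hm.isPrime
  exact hp.mem_or_mem (x := ⟨a, ha⟩) (y := ⟨b, hb⟩) h

theorem cong_nat (hm : 𝔪.IsMaximal) (ℓ : ℕ) [hl : Fact ℓ.Prime]
    (hℓ : (ℓ : integralClosure ℤ ℂ) ∈ 𝔪) (n : ℕ) : Cong 𝔪 (n : ℂ) 0 ↔ ℓ ∣ n := by
  have hn : IsIntegral ℤ (n : ℂ) := by
    simpa using (isIntegral_algebraMap (R := ℤ) (A := ℂ) (x := (n : ℤ)))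
  rw [cong_zero_iff hn]
  have hc : (⟨(n : ℂ), hn⟩ : integralClosure ℤ ℂ) = (n : integralClosure ℤ ℂ) :=
    Subtype.ext (by simp)
  rw [hc]
  constructor
  · intro h
    by_contra hd
    have hcop : IsCoprime (ℓ : ℤ) (n : ℤ) := by
      rw [Nat.isCoprime_iff_coprime]
      exact (Nat.Prime.coprime_iff_not_dvd hl.out).2 hd
    obtain ⟨u, v, huv⟩ := hcop
    apply hm.ne_top
    rw [Ideal.eq_top_iff_one]
    have : (1 : integralClosure ℤ ℂ) = (u : integralClosure ℤ ℂ) * (ℓ : integralClosure ℤ ℂ) +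
        (v : integralClosure ℤ ℂ) * (n : integralClosure ℤ ℂ) := by
      have := congrArg (Int.cast : ℤ → integralClosure ℤ ℂ) huv
      push_cast at this
      exact this.symm
    rw [this]
    exact 𝔪.add_mem (𝔪.mul_mem_left _ hℓ) (𝔪.mul_mem_left _ h)
  · rintro ⟨k, rfl⟩
    push_cast
    exact 𝔪.mul_mem_right _ hℓ

end H14

theorem l0 : T_L0 := by
  intro 𝔪 hm
  refine ⟨fun a => H14.cong_refl a, fun a b h => H14.cong_symm h,
    fun a b c h h' => H14.cong_trans h h', fun a b c d h h' => H14.cong_add h h',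
    fun a b c hc h => H14.cong_mul hc h, fun ι s f g h => H14.cong_sum s f g h,
    fun a b ha hb h => H14.cong_prime hm ha hb h, ?_⟩
  intro ℓ hl hℓ n
  exact H14.cong_nat hm ℓ hℓ n

end AMx
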